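import Pool.Agent.Helper520.PM.Fin

/-!
# The large inductive dimension of the product of a metric space and a normal space

There are a metric space `M` and a normal Hausdorff space `Y`, both nonempty, whose product is
normal, with `Ind M + Ind Y < Ind (M × Y)`.
-/

namespace Pool.Agent.Results.MP_840f9c_gt.IndProduct

open Set Topology

/-- `IndLT n X` says `Ind X < n`, that is `Ind X ≤ n - 1`: the space `X` has `Ind X ≤ -1` iff it
is empty, and `Ind X ≤ n` iff for every closed `A` and every open `U ⊇ A` there is an open `V`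
with `A ⊆ V ⊆ closure V ⊆ U` and `Ind (frontier V) ≤ n - 1`. -/
def IndLT : ℕ → (X : Type) → [TopologicalSpace X] → Prop
  | 0, X, _ => IsEmpty X
  | n + 1, X, _ => ∀ A U : Set X, IsClosed A → IsOpen U → A ⊆ U →
      ∃ V : Set X, IsOpen V ∧ A ⊆ V ∧ closure V ⊆ U ∧ IndLT n (frontier V)

open Classical in
/-- The large inductive dimension, with values in `{-1, 0, 1, 2, …, ∞}`: if `k` is the least
natural number with `Ind X < k`, then `Ind X = k - 1`; if there is no such `k`, then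
`Ind X = ∞`. -/
noncomputable def Ind (X : Type) [TopologicalSpace X] : WithTop ℤ :=
  if h : ∃ k : ℕ, IndLT k X then ((((Nat.find h : ℕ) : ℤ) - 1 : ℤ) : WithTop ℤ) else ⊤

theorem indLT_iff (n : ℕ) : ∀ (X : Type) [TopologicalSpace X],
    IndLT n X ↔ Pool.Agent.Helper520.PM.IndLT n X := by
  induction n with
  | zero => intro X _; exact Iff.rfl
  | succ n ih =>
    intro X _
    constructor
    · intro h A U hA hU hAU
      obtain ⟨V, h1, h2, h3, h4⟩ := h A U hA hU hAU
      exact ⟨V, h1, h2, h3, (ih _).1 h4⟩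
    · intro h A U hA hU hAU
      obtain ⟨V, h1, h2, h3, h4⟩ := h A U hA hU hAU
      exact ⟨V, h1, h2, h3, (ih _).2 h4⟩

theorem IndLT.mono {n m : ℕ} (h : n ≤ m) {X : Type} [TopologicalSpace X] (hX : IndLT n X) :
    IndLT m X :=
  (indLT_iff m X).2 (Pool.Agent.Helper520.PM.IndLT.mono h ((indLT_iff n X).1 hX))

/-- `Ind X ≤ n - 1` in the sense of the relation `IndLT` and of the value `Ind`. -/
theorem ind_lt_iff (n : ℕ) (X : Type) [TopologicalSpace X] :
    Ind X < ((n : ℤ) : WithTop ℤ) ↔ IndLT n X := by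
  classical
  unfold Ind
  by_cases h : ∃ k : ℕ, IndLT k X
  · rw [dif_pos h, WithTop.coe_lt_coe]
    constructor
    · intro hlt
      exact IndLT.mono (by omega) (Nat.find_spec h)
    · intro hn
      have := Nat.find_min' h hn
      omega
  · rw [dif_neg h]
    constructor
    · intro hlt
      exact absurd hlt not_top_lt
    · intro hn
      exact absurd ⟨n, hn⟩ h

/-- `Ind X = -1` iff `X` is empty. -/
theorem ind_eq_neg_one_iff (X : Type) [TopologicalSpace X] :
    Ind X = ((-1 : ℤ) : WithTop ℤ) ↔ IsEmpty X := by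
  classical
  constructor
  · intro h
    have h1 : IndLT 0 X := by
      rw [← ind_lt_iff, h]
      exact WithTop.coe_lt_coe.2 (by norm_num)
    exact h1
  · intro h
    have h0 : IndLT 0 X := h
    have hex : ∃ k : ℕ, IndLT k X := ⟨0, h0⟩
    unfold Ind
    rw [dif_pos hex]
    have h1 : Nat.find hex = 0 := Nat.le_zero.1 (Nat.find_min' hex h0)
    rw [h1]
    norm_num

/-- A metric space `M` and a normal Hausdorff space `Y`, both nonempty, with normal product
`M × Y`, for which `Ind (M × Y) > Ind M + Ind Y`; in fact `Ind M = 0`, `Ind Y ≤ 2` and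
`Ind (M × Y) ≥ 3`. -/
theorem result : ∃ (M Y : Type) (_ : MetricSpace M) (_ : TopologicalSpace Y),
    Nonempty M ∧ Nonempty Y ∧ T2Space Y ∧ NormalSpace Y ∧ T2Space (M × Y) ∧
      NormalSpace (M × Y) ∧ Ind M = ((0 : ℤ) : WithTop ℤ) ∧ Ind Y ≤ ((2 : ℤ) : WithTop ℤ) ∧
      ((3 : ℤ) : WithTop ℤ) ≤ Ind (M × Y) ∧ Ind M + Ind Y < Ind (M × Y) := by
  obtain ⟨c⟩ := Pool.Agent.Helper520.PM.nonempty_col
  have hT2 : T2Space c.dat.Y := c.dat.t2Space_Y
  have hprod : NormalSpace (Pool.Agent.Helper520.PM.MM × c.dat.Y) := c.dat.normalSpace_prod _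
  have hM1 : Ind Pool.Agent.Helper520.PM.MM < ((1 : ℤ) : WithTop ℤ) :=
    (ind_lt_iff 1 _).2 ((indLT_iff 1 _).2 Pool.Agent.Helper520.PM.indLT_MM)
  have hM0 : ¬ Ind Pool.Agent.Helper520.PM.MM < ((0 : ℤ) : WithTop ℤ) := by
    intro h
    have h1 : IsEmpty Pool.Agent.Helper520.PM.MM := (ind_lt_iff 0 _).1 h
    exact h1.false Pool.Agent.Helper520.PM.MM.om
  have hM : Ind Pool.Agent.Helper520.PM.MM = ((0 : ℤ) : WithTop ℤ) := by
    have h2 := not_lt.1 hM0
    obtain ⟨k, hk⟩ := WithTop.ne_top_iff_exists.1 hM1.ne_top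
    rw [← hk] at hM1 h2 ⊢
    rw [WithTop.coe_lt_coe] at hM1
    rw [WithTop.coe_le_coe] at h2
    congr 1
    omega
  have hY : Ind c.dat.Y < ((3 : ℤ) : WithTop ℤ) :=
    (ind_lt_iff 3 _).2 ((indLT_iff 3 _).2
      (c.dat.indLT_Y c.countable_R c.dense_R c.PL))
  have hY' : Ind c.dat.Y ≤ ((2 : ℤ) : WithTop ℤ) := by
    obtain ⟨k, hk⟩ := WithTop.ne_top_iff_exists.1 hY.ne_top
    rw [← hk] at hY ⊢
    rw [WithTop.coe_lt_coe] at hY
    rw [WithTop.coe_le_coe]
    omega
  have hMY : ((3 : ℤ) : WithTop ℤ) ≤ Ind (Pool.Agent.Helper520.PM.MM × c.dat.Y) := by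
    rw [← not_lt]
    intro h
    exact Pool.Agent.Helper520.PM.not_indLT_prod c
      ((indLT_iff 3 _).1 ((ind_lt_iff 3 _).1 h))
  have hemb : IsClosedEmbedding
      (fun y : c.dat.Y => ((Pool.Agent.Helper520.PM.MM.om, y) :
        Pool.Agent.Helper520.PM.MM × c.dat.Y)) := by
    refine ⟨isEmbedding_prodMkRight _, ?_⟩
    have : range (fun y : c.dat.Y => ((Pool.Agent.Helper520.PM.MM.om, y) :
        Pool.Agent.Helper520.PM.MM × c.dat.Y)) =
        Prod.fst ⁻¹' {Pool.Agent.Helper520.PM.MM.om} := by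
      ext ⟨m, y⟩
      simp [eq_comm]
    rw [this]
    exact isClosed_singleton.preimage continuous_fst
  refine ⟨Pool.Agent.Helper520.PM.MM, c.dat.Y, inferInstance, inferInstance,
    ⟨Pool.Agent.Helper520.PM.MM.om⟩, ⟨Pool.Agent.Helper520.PM.Tot.base (0, 0)⟩, hT2,
    hemb.normalSpace, inferInstance, hprod, hM, hY', hMY, ?_⟩
  refine lt_of_le_of_lt ?_ (lt_of_lt_of_le (WithTop.coe_lt_coe.2 (by norm_num :
    (2 : ℤ) < 3)) hMY)
  rw [hM]
  simpa using hY'

end Pool.Agent.Results.MP_840f9c_gt.IndProduct
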